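import Pool.Agent.MP_5f72fe_nt.H25.AllD

/-! The central value of a Hecke eigenform of level one and weight divisible by four. -/

namespace Pool.Agent.MP_20b2fd_nt.WeightAspect

open Pool.Agent.MP_5f72fe_nt.H3
open scoped MatrixGroups UpperHalfPlane NumberTheorySymbols

/-- the Fourier coefficient `a(n)` in `f(z) = ∑ a(n) exp(2 π i n z)` -/
noncomputable def coeff (f : ℍ → ℂ) (n : ℕ) : ℂ := (UpperHalfPlane.qExpansion 1 f).coeff n

/-- the coefficients of an eigenfunction of every Hecke operator `T_p` in weight `w`, level one -/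
def IsEigen (w : ℕ) (a : ℕ → ℂ) : Prop :=
  ∀ p : ℕ, p.Prime → ∃ l : ℂ, ∀ n : ℕ, 1 ≤ n →
    a (p * n) + p ^ (w - 1) * (if p ∣ n then a (n / p) else 0) = l * a n

theorem summ (k : ℕ) (f : CuspForm 𝒮ℒ (2 * k : ℕ)) (s : ℂ) (hs : k + 1 < s.re) :
    LSeriesSummable (aF f) s := by
  have h1 := CuspFormClass.qExpansion_isBigO f
  rw [Subgroup.strictWidthInfty_SL2Z] at h1
  refine LSeriesSummable_of_isBigO_rpow hs (h1.congr_right fun n => ?_)
  congr 1
  push_cast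
  ring

theorem result (w : ℕ) (hw : 4 ∣ w) (f : CuspForm 𝒮ℒ w) (h0 : f ≠ 0) (hf : IsEigen w (coeff f)) :
    ∃ L : ℂ → ℂ, Differentiable ℂ L ∧
      (∀ s : ℂ, (w : ℝ) / 2 + 1 < s.re → LSeriesHasSum (coeff f) s (L s)) ∧ L (w / 2) ≠ 0 := by
  obtain ⟨k, rfl, hk⟩ : ∃ k, w = 2 * k ∧ k % 2 = 0 := ⟨w / 2, by omega, by omega⟩
  obtain ⟨A, hi, hA⟩ := allSER.cfLin (2 * k : ℕ)
  have h1 : aF f 1 ≠ 0 := fun h1 => h0 (hi (by
    rw [hA, map_zero]
    funext m
    rcases Nat.eq_zero_or_pos m with rfl | hm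
    · exact (allSER.cf _ f).2.1
    · exact hek_one _ _ hf h1 m hm))
  have e : ∀ m, aF ((aF f 1)⁻¹ • f) m = (aF f 1)⁻¹ * aF f m := fun m => by
    have := congrFun (map_smul A (aF f 1)⁻¹ f) m
    rwa [hA, hA] at this
  have hg : Hecke k (aF ((aF f 1)⁻¹ • f : CuspForm 𝒮ℒ (2 * k : ℕ))) := by
    refine ⟨(e 1).trans (inv_mul_cancel₀ h1), fun m n hm hn => ?_⟩
    have := hek _ (aF f) hf m hm n hn
    simp only [FunLike.coe_smul, e, mul_left_comm _ (aF f 1)⁻¹, ← Finset.mul_sum]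
    field_simp
    linear_combination this
  obtain ⟨L, ⟨hL1, hL2⟩, hL3⟩ := Pool.Agent.MP_5f72fe_nt.H25.allONE k _ hg hk
  refine ⟨fun s => aF f 1 * L s, hL1.const_mul _, fun s hs' => ?_, ?_⟩
  · have hs2 : k + 1 < s.re := by
      push_cast at hs'
      linarith
    have h2 := (summ k ((aF f 1)⁻¹ • f) s hs2).LSeriesHasSum.smul (aF f 1)
    have h3 := hL2 s hs2
    simp only [jacobiSym.one_right, Int.cast_one, mul_one] at h3
    rw [← h3] at h2
    refine Eq.mp (congrArg (fun g => LSeriesHasSum g s (aF f 1 * L s)) (funext fun m => ?_)) h2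
    simp only [FunLike.coe_smul, e, Pi.smul_apply, smul_eq_mul]
    rw [← mul_assoc, mul_inv_cancel₀ h1, one_mul]
    rfl
  · rw [show ((2 * k : ℕ) : ℂ) / 2 = k by push_cast; ring]
    exact mul_ne_zero h1 hL3

end Pool.Agent.MP_20b2fd_nt.WeightAspect
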